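import Mathlib

/-!
# A class of plane curves: definitions

A polynomial `f` in `k[t][x]` is a polynomial `f(x, t)`, where `x` is the outer variable.
-/

set_option autoImplicit false
set_option linter.all false

open Polynomial

namespace Pool.Agent.Y160.SL

variable {k : Type} [Field k]

/-- `f(x, 0)`. -/
noncomputable def atZero (f : k[X][X]) : k[X] := f.map (evalRingHom (0 : k))

/-- `f(x, t ^ p)`. -/
noncomputable def powT (p : ℕ) (f : k[X][X]) : k[X][X] := f.map (expand k p : k[X] →+* k[X])

/-- The polynomials `f(x, t)` obtained from `x` (a line) by the following operations: multiplication by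
a constant; `f(t, x)`; the change of coordinates `f(c x + b(t), t)`; and `f(x, t ^ p)`, if the
polynomial `f(x, 0)` is irreducible and separable of degree prime to `p`. -/
inductive IsTowerCurve (p : ℕ) : k[X][X] → Prop
  | line : IsTowerCurve p X
  | unit (f : k[X][X]) (c : k) : c ≠ 0 → IsTowerCurve p f → IsTowerCurve p (C (C c) * f)
  | swap (f : k[X][X]) : IsTowerCurve p f → IsTowerCurve p (Bivariate.swap f)
  | shear (f : k[X][X]) (c : k) (b : k[X]) : c ≠ 0 → IsTowerCurve p f →
      IsTowerCurve p (f.comp (C (C c) * X + C b))
  | root (f : k[X][X]) : Irreducible (atZero f) → (atZero f).Separable →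
      p.Coprime (atZero f).natDegree → IsTowerCurve p f → IsTowerCurve p (powT p f)

end Pool.Agent.Y160.SL
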