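import Pool.Agent.Y160.SL.Cls

/-!
# A class of plane curves with functions whose divisors are divisible by `q`: definitions
-/

set_option autoImplicit false
set_option linter.all false

open Polynomial

namespace Pool.Agent.Y160.SL

variable {k : Type} [Field k] {r : ℕ}

/-- `f = ∏ v_j + T ^ q`. -/
noncomputable def eqOf (q : ℕ) (v : Fin (r + 1) → k[X][X]) (T : k[X][X]) : k[X][X] :=
  ∏ j, v j + T ^ q

/-- A product `c ∏ a_j ^ e_j`, `c` a constant, is a `p`-th power modulo `G` only if all `e_j` are
congruent modulo `p`. -/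
def IndepMod (p : ℕ) (G : k[X]) (a : Fin (r + 1) → k[X]) : Prop :=
  ∀ (c : k) (e : Fin (r + 1) → ℕ) (w : k[X]), c ≠ 0 → G ∣ C c * ∏ j, a j ^ e j - w ^ p →
    ∀ i j, e i ≡ e j [MOD p]

/-- The condition of Rédei: if, for a constant `c`, the product of `c` and the `G_j ^ (e_j - e_i)`, `j ≠ i`,
is a `p`-th power modulo `G_i` for all `i`, then all `e_j` are congruent modulo `p`. -/
def Redei (p : ℕ) (G : Fin (r + 1) → k[X]) : Prop :=
  ∀ (c : k) (e : Fin (r + 1) → ℕ), c ≠ 0 →
    (∀ i, ∃ w : k[X], G i ∣ C c * ∏ j ∈ Finset.univ.erase i, G j ^ e j -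
      (∏ j ∈ Finset.univ.erase i, G j) ^ e i * w ^ p) → ∀ i j, e i ≡ e j [MOD p]

/-- The families `v_0, …, v_r` and `T` of polynomials in `x` (the outer variable) and `t` obtained from
`G_0(t), …, G_r(t)` and `x` by changes of coordinates and by `t ↦ t ^ p`. -/
inductive IsTowerData (p q r : ℕ) : (Fin (r + 1) → k[X][X]) → k[X][X] → Prop
  | base (G : Fin (r + 1) → k[X]) : (∀ j, (G j).Monic ∧ Irreducible (G j) ∧ (G j).Separable) →
      Function.Injective G → p.Coprime (∏ j, G j).natDegree → Redei p G →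
      IsTowerData p q r (fun j => C (G j)) X
  | swap (v : Fin (r + 1) → k[X][X]) (T : k[X][X]) : IsTowerData p q r v T →
      IsTowerData p q r (fun j => Bivariate.swap (v j)) (Bivariate.swap T)
  | shear (v : Fin (r + 1) → k[X][X]) (T : k[X][X]) (c : k) (b : k[X]) : c ≠ 0 →
      IsTowerData p q r v T → IsTowerData p q r (fun j => (v j).comp (C (C c) * X + C b))
        (T.comp (C (C c) * X + C b))
  | root (v : Fin (r + 1) → k[X][X]) (T : k[X][X]) : Irreducible (atZero (eqOf q v T)) →
      (atZero (eqOf q v T)).Separable → p.Coprime (atZero (eqOf q v T)).natDegree →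
      (∀ j, (atZero (v j)).Separable ∧ 0 < (atZero (v j)).natDegree) →
      IndepMod p (atZero (eqOf q v T)) (fun j => atZero (v j)) →
      IsTowerData p q r v T → IsTowerData p q r (fun j => powT p (v j)) (powT p T)

end Pool.Agent.Y160.SL
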