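import Pool.Agent.Y160.SL.Fam

/-!
# The surfaces `w ^ q = ∏ (x ^ M + τ - ρ_i) + (β + c t ^ (p ^ d)) ^ q`: definitions
-/

set_option autoImplicit false
set_option linter.all false

open Polynomial IsDedekindDomain

namespace Pool.Agent.Y160.SL

/-- The conditions on the residue classes modulo `p`-th powers. The polynomials `∏ (x - ρ_i)` and
`∏ (x - γ_i) = ∏ (x - ρ_i) + β ^ q` have simple roots in `k`, and the relations between the classes of
the elements `γ_j - ρ_i`, `ρ_i - γ_j` and `ρ_i - ρ_j` in `k* / k* ^ p`, in the rows of the matrices of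
these elements, are the obvious ones only: the exponents are equal modulo `p`. -/
structure IsResidue {k : Type} [Field k] (p q : ℕ) {m : ℕ} (ρ γ : Fin m → k) (β : k) : Prop where
  ne : β ≠ 0
  prod : ∏ i, (X - C (γ i)) = ∏ i, (X - C (ρ i)) + C (β ^ q)
  injρ : Function.Injective ρ
  injγ : Function.Injective γ
  same : ∀ (c : k) (e : Fin m → ℕ), c ≠ 0 → (∀ i, ∃ y : k, y ≠ 0 ∧
    c * ∏ j ∈ Finset.univ.erase i, (ρ i - ρ j) ^ e j =
      (∏ j ∈ Finset.univ.erase i, (ρ i - ρ j)) ^ e i * y ^ p) → ∀ i j, e i ≡ e j [MOD p]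
  rows : ∀ (c : k) (e : Fin m → ℕ), c ≠ 0 → (∀ j, ∃ y : k, c * ∏ i, (γ j - ρ i) ^ e i = y ^ p) →
    ∀ i j, e i ≡ e j [MOD p]
  cols : ∀ (c : k) (e : Fin m → ℕ), c ≠ 0 → (∀ i, ∃ y : k, c * ∏ j, (ρ i - γ j) ^ e j = y ^ p) →
    ∀ i j, e i ≡ e j [MOD p]

/-- `M` is prime to `p` and to the characteristic, and the binomials `x ^ M + τ - ρ_i` and
`x ^ M + τ - γ_i` are irreducible. -/
structure IsBinom {k : Type} [Field k] (p M : ℕ) {m : ℕ} (ρ γ : Fin m → k) (τ : k) : Prop where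
  cop : p.Coprime M
  ne : (M : k) ≠ 0
  irr : ∀ i, Irreducible (X ^ M + C (τ - ρ i) : k[X]) ∧ Irreducible (X ^ M + C (τ - γ i) : k[X])

/-- The conclusions for the Jacobian `J` of the curve `w ^ q = f(x)` over `K = k(t)`: the `p`-primary
part of the Tate-Shafarevich group of `J` is zero, and `J(K)` has a basis at `p` with `n (q - 1)`
elements. -/
structure ShaBasis (p q n : ℕ) (k : Type) {K : Type} [Field k] [Field K] [Algebra k[X] K]
    [IsFractionRing k[X] K] (f : K[X]) : Prop where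
  sha : ShaTriv p q k[X] f
  basis : ∃ D : Fin n × Fin (q - 1) → Jac q f K, IsBasisAt p D

/-- `f = ∏ (x ^ M + τ - ρ_i) + (β + c t ^ n) ^ q`, a polynomial in `x` (the outer variable) over
`k[t]`. -/
noncomputable def finSurf {k : Type} [Field k] (q M n : ℕ) {m : ℕ} (ρ : Fin m → k) (τ β c : k) :
    k[X][X] :=
  surf q (∏ i, (X ^ M + C (τ - ρ i))) (C β + C c * X ^ n)

end Pool.Agent.Y160.SL
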