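import Pool.Agent.Y160.SL.Jac
import Pool.Agent.Y160.SH.Defs

/-!
# Comparison of the definitions
-/

set_option autoImplicit false
set_option linter.all false

open Polynomial IsDedekindDomain
open scoped Classical

namespace Pool.Agent.Y160.SL

open Pool.Agent.TH115.GD (incl rs ak Sep Comp CompInf IsTower)

section jac

variable (q : ℕ) {K Ω Ω' : Type} [Field K] [Field Ω] [Field Ω'] [Algebra K Ω] [Algebra K Ω']

theorem jac_eq (f : K[X]) : Jac q f Ω = Pool.Agent.Y160.SQ.Jac q f Ω := rfl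

theorem jm_eq (f : K[X]) (φ : Ω →ₐ[K] Ω') (x : Jac q f Ω) :
    jm q f φ x = Pool.Agent.Y160.SQ.jm q f φ x := rfl

end jac

section stmt

variable {p q : ℕ} {K F : Type} [Field K] [Field F] [Algebra K F]

theorem locTriv_iff {Ω L Ω' : Type} [Field Ω] [Field L] [Field Ω'] [Algebra F Ω]
    [Algebra K Ω] [IsScalarTower K F Ω]
    [Algebra K L] [Algebra L Ω'] [Algebra K Ω'] [Algebra F Ω'] [IsScalarTower K L Ω']
    [IsScalarTower K F Ω'] (f : K[X]) (c : (Ω ≃ₐ[F] Ω) → Jac q f Ω) :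
    LocTriv q f L Ω' c ↔ Pool.Agent.Y160.SQ.LocTriv q f L Ω' c := Iff.rfl

theorem tateAt_of {k' : Type} [Field k'] [Algebra k'[X] F] [IsFractionRing k'[X] F] {f : K[X]}
    (h : Pool.Agent.Y160.SQ.TateAt (F := F) p q k' f) : TateAt (F := F) p q k' f := by
  intro c hc hl hi n
  exact h c ⟨fun n => ⟨(hc.coc n).lc, (hc.coc n).mul⟩, hc.zero, hc.step⟩ hl
    (fun τ => by
      obtain ⟨m, Q, hQ, hm⟩ := hi τ
      exact ⟨m, Q, ⟨hQ.zero, hQ.step⟩, hm⟩) n

theorem shaTriv_of {A : Type} [CommRing A] [IsDedekindDomain A] [Algebra A K]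
    [IsFractionRing A K] {f : K[X]} (h : Pool.Agent.Y160.SH.ShaTriv p q A f) :
    ShaTriv p q A f := by
  intro c hc hp hv
  exact h c ⟨hc.lc, hc.mul⟩ hp hv

end stmt

end Pool.Agent.Y160.SL
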