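import Mathlib

/-!
# Branch curves: definitions
-/

set_option autoImplicit false
set_option linter.all false

open Polynomial

namespace Pool.Agent.Y160.SL

section smooth

variable {k : Type} [CommRing k]

/-- The partial derivative with respect to the inner variable `t`. -/
noncomputable def derivT (f : k[X][X]) : k[X][X] := f.sum fun i a => C (derivative a) * X ^ i

/-- The affine curve `f = 0` is smooth: `f` and its two partial derivatives generate the unit
ideal. -/
def Smooth (f : k[X][X]) : Prop := Ideal.span {f, derivative f, derivT f} = ⊤

end smooth

/-- The polynomial `f` in `x` (the outer variable) and `t` is monic of degree prime to `p` in `x`, the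
affine curve `f = 0` is smooth, `f` is separable over `K = k(t)` and irreducible over `F = k'(t)`. -/
structure IsBranch (p : ℕ) {k : Type} [Field k] (f : k[X][X]) (K F : Type) [Field K]
    [Algebra k[X] K] [Field F] [Algebra K F] : Prop where
  monic : f.Monic
  cop : p.Coprime f.natDegree
  smooth : Smooth f
  sep : (f.map (algebraMap k[X] K)).Separable
  irr : Irreducible ((f.map (algebraMap k[X] K)).map (algebraMap K F))

/-- Let `R` be the integral closure of `A` in the field `N` (the coordinate ring of a curve). The
divisor of `z` is divisible by `q`: the `R`-module generated by `z` is the `q`-th power of an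
`R`-submodule of `N`. -/
def DivBy (A : Type) [CommRing A] {N : Type} [CommRing N] [Algebra A N] (q : ℕ) (z : N) : Prop :=
  ∃ I : Submodule (integralClosure A N) N, I ^ q = Submodule.span (integralClosure A N) {z}

/-- Let `f` be a polynomial over `K = k(t)` and `θ` its root in `N = K[x] / (f)`. The function `z` in
`N` is a constant of `k` times a `q`-th power times a product of elements `b(θ)`, where `b` is a monic
divisor of a polynomial `f - c ^ q`; so `b = 0`, `w = c` is a divisor on the curve `w ^ q = f(x)`. -/
def ByPoints (k : Type) [Field k] {K : Type} [Field K] [Algebra k[X] K] (q : ℕ) (f : K[X])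
    (z : AdjoinRoot f) : Prop :=
  ∃ (u : k) (g : AdjoinRoot f) (S : Multiset K[X]), u ≠ 0 ∧ IsUnit g ∧
    (∀ b ∈ S, b.Monic ∧ ∃ c : K[X], b ∣ f - c ^ q) ∧
    z = AdjoinRoot.of f (algebraMap k[X] K (C u)) * g ^ q * AdjoinRoot.mk f S.prod

end Pool.Agent.Y160.SL
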