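import Pool.Agent.TH115.GD.Defs

/-!
# The Jacobian of the curve `w ^ q = f(x)`, its cocycles, and the Tate conjecture

`q` is a power of the prime `p`, `k'` is a separable closure of `k`, `K = k(t)`, `F = k'(t)`, and
`f` is a polynomial over `K` of degree prime to `q`. The curve `w ^ q = f(x)` has one point at
infinity, which is rational, so the group `J(Ω)` of the points of its Jacobian over a field `Ω` is the
Picard group of the affine curve, `Pic(Ω[x, w] / (w ^ q - f(x)))`.
-/

set_option autoImplicit false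
set_option linter.all false

open Polynomial IsDedekindDomain
open scoped Classical

namespace Pool.Agent.Y160.SL

open Pool.Agent.TH115.GD (incl rs ak Sep Comp CompInf IsTower)

section ring

variable (q : ℕ) {E E' : Type} [CommRing E] [CommRing E']

/-- The polynomial `w ^ q - f(x)` in the variable `w` over `E[x]`. -/
noncomputable def eqn (f : E[X]) : E[X][X] := X ^ q - C f

/-- The coordinate ring `E[x, w] / (w ^ q - f(x))` of the affine curve `w ^ q = f(x)`. -/
def CoordRing (f : E[X]) : Type := AdjoinRoot (eqn q f)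

noncomputable instance coordRing (f : E[X]) : CommRing (CoordRing q f) :=
  (inferInstance : CommRing (AdjoinRoot (eqn q f)))

/-- A polynomial in `x` as a function on the curve. -/
noncomputable def ofPoly (f : E[X]) : E[X] →+* CoordRing q f := AdjoinRoot.of (eqn q f)

/-- The function `w`. -/
noncomputable def wfun (f : E[X]) : CoordRing q f := AdjoinRoot.root (eqn q f)

/-- A ring homomorphism from `E[x, w] / (w ^ q - f(x))`. -/
noncomputable def liftRing {S : Type} [CommRing S] (f : E[X]) (φ : E[X] →+* S) (y : S)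
    (h : eval₂ φ y (eqn q f) = 0) : CoordRing q f →+* S := AdjoinRoot.lift φ y h

theorem eval_eqn {S : Type} [CommRing S] (f : E[X]) (φ : E[X] →+* S) (y : S) (h : y ^ q = φ f) :
    eval₂ φ y (eqn q f) = 0 := by
  unfold eqn
  rw [eval₂_sub, eval₂_X_pow, eval₂_C, h, sub_self]

theorem wfun_pow (f : E[X]) : wfun q f ^ q = ofPoly q f f := by
  have h := AdjoinRoot.eval₂_root (eqn q f)
  unfold eqn at h
  rw [eval₂_sub, eval₂_X_pow, eval₂_C, sub_eq_zero] at h
  exact h

/-- The homomorphism of coordinate rings given by `φ : E → E'`, `x ↦ x`, `w ↦ w`. -/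
noncomputable def mapRing (φ : E →+* E') (f : E[X]) (f' : E'[X]) (h : f.map φ = f') :
    CoordRing q f →+* CoordRing q f' :=
  liftRing q f ((ofPoly q f').comp (mapRingHom φ)) (wfun q f') (eval_eqn q f _ _ (by
    rw [wfun_pow, ← h]
    rfl))

end ring

/-- The homomorphism of Picard groups given by a homomorphism of rings. -/
noncomputable def picMap {A B : Type} [CommRing A] [CommRing B] (φ : A →+* B) :
    Additive (CommRing.Pic A) →+ Additive (CommRing.Pic B) :=
  MonoidHom.toAdditive (CommRing.Pic.mapRingHom φ)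

section jac

variable (q : ℕ) {K Ω Ω' : Type} [Field K] [Field Ω] [Field Ω'] [Algebra K Ω] [Algebra K Ω']

/-- The group `J(Ω) = Pic(Ω[x, w] / (w ^ q - f(x)))` over an extension `Ω` of `K`. -/
def Jac (f : K[X]) (Ω : Type) [Field Ω] [Algebra K Ω] : Type :=
  Additive (CommRing.Pic (CoordRing q (f.map (algebraMap K Ω))))

noncomputable instance jacGroup (f : K[X]) (Ω : Type) [Field Ω] [Algebra K Ω] :
    AddCommGroup (Jac q f Ω) :=
  (inferInstance : AddCommGroup (Additive (CommRing.Pic (CoordRing q (f.map (algebraMap K Ω))))))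

/-- The homomorphism of coordinate rings given by a `K`-homomorphism `φ : Ω → Ω'`. -/
noncomputable def mapOf (f : K[X]) (φ : Ω →ₐ[K] Ω') :
    CoordRing q (f.map (algebraMap K Ω)) →+* CoordRing q (f.map (algebraMap K Ω')) :=
  mapRing q (φ : Ω →+* Ω') (f.map (algebraMap K Ω)) (f.map (algebraMap K Ω'))
    (by rw [Polynomial.map_map, φ.comp_algebraMap])

/-- The homomorphism `J(Ω) → J(Ω')` given by a `K`-homomorphism `φ : Ω → Ω'`. -/
noncomputable def jm (f : K[X]) (φ : Ω →ₐ[K] Ω') : Jac q f Ω →+ Jac q f Ω' :=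
  picMap (mapOf q f φ)

end jac

section cocycles

variable (p q : ℕ) {K F Ω : Type} [Field K] [Field F] [Field Ω] [Algebra K F] [Algebra F Ω]
  [Algebra K Ω] [IsScalarTower K F Ω] (f : K[X])

/-- Continuous 1-cocycles of `Gal(Ω / F)` with values in the discrete group `J(Ω)`. -/
structure IsCoc (c : (Ω ≃ₐ[F] Ω) → Jac q f Ω) : Prop where
  lc : IsLocallyConstant c
  mul : ∀ σ τ, c (σ * τ) = c σ + jm q f (rs K σ) (c τ)

/-- `Q` is an element of the Tate module `T_p J`: `Q 0 = 0`, `p Q (n + 1) = Q n`. -/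
structure IsTM (Q : ℕ → Jac q f Ω) : Prop where
  zero : Q 0 = 0
  step : ∀ n, p • Q (n + 1) = Q n

/-- `c` is a continuous 1-cocycle of `Gal(Ω / F)` with values in the Tate module `T_p J`: `c n` is a
cocycle with values in the points of order `p ^ n`, and `p c (n + 1) = c n`. -/
structure IsTC (c : ℕ → (Ω ≃ₐ[F] Ω) → Jac q f Ω) : Prop where
  coc : ∀ n, IsCoc q f (c n)
  zero : ∀ σ, c 0 σ = 0
  step : ∀ n σ, p • c (n + 1) σ = c n σ

/-- `c σ = σ Q - Q` for all `σ` in `Gal(Ω / F)`. -/
def IsCobOf (c : (Ω ≃ₐ[F] Ω) → Jac q f Ω) (Q : Jac q f Ω) : Prop :=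
  ∀ σ, c σ = jm q f (rs K σ) Q - Q

/-- The class of `c` in `H ^ 1 (F, V_p J)` is fixed by `Gal(Ω / K)`: for each `τ` in `Gal(Ω / K)`
there is an `m` such that `p ^ m (τ c - c)` is the coboundary of an element `Q` of the Tate module.
Here `(τ c) (σ) = τ (c (σ'))` with `σ' = τ⁻¹ σ τ`. -/
def IsInv (c : ℕ → (Ω ≃ₐ[F] Ω) → Jac q f Ω) : Prop :=
  ∀ τ : Ω ≃ₐ[K] Ω, ∃ (m : ℕ) (Q : ℕ → Jac q f Ω), IsTM p q f Q ∧
    ∀ (n : ℕ) (σ σ' : Ω ≃ₐ[F] Ω), (∀ x, τ (σ' x) = σ (τ x)) →
      p ^ m • (jm q f (ak τ) (c n σ') - c n σ) = jm q f (rs K σ) (Q n) - Q n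

/-- `L` is an extension of `F` (a completion) and `Ω'` a separable closure of `L`. The restriction
of `c` to `Gal(Ω' / L)`, with values in `J(Ω')`, is a coboundary: for an embedding `ι : Ω → Ω'`
there is an element `P` of `J(Ω')` with `c(τ|Ω) = τ P - P` for all `τ` in `Gal(Ω' / L)`. -/
def LocTriv (L Ω' : Type) [Field L] [Field Ω'] [Algebra K L] [Algebra L Ω'] [Algebra K Ω']
    [Algebra F Ω'] [IsScalarTower K L Ω'] [IsScalarTower K F Ω']
    (c : (Ω ≃ₐ[F] Ω) → Jac q f Ω) : Prop :=
  ∃ (ι : Ω →ₐ[F] Ω') (P : Jac q f Ω'), ∀ (τ : Ω' ≃ₐ[L] Ω') (σ : Ω ≃ₐ[F] Ω),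
    (∀ x, τ (ι x) = ι (σ x)) →
      jm q f (ι.restrictScalars K) (c σ) = jm q f (rs K τ) P - P

end cocycles

section stmt

variable (p q : ℕ) {K F : Type} [Field K] [Field F] [Algebra K F]

/-- A cochain of `Gal(Sep F / F)` with values in `J` is locally trivial if its restriction to the
Galois group of the completion of `F = k'(t)` is a coboundary at every place of `F`: at the
maximal ideals of `k'[t]` and at the place `t = ∞`. -/
def LocallyTrivial (k' : Type) [Field k'] [Algebra k'[X] F] [IsFractionRing k'[X] F]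
    (f : K[X]) (c : (Sep F ≃ₐ[F] Sep F) → Jac q f (Sep F)) : Prop :=
  (∀ v : HeightOneSpectrum k'[X], LocTriv q f (Comp k'[X] F v) (Sep (Comp k'[X] F v)) c) ∧
  LocTriv q f (CompInf k' F) (Sep (CompInf k' F)) c

/-- The Tate conjecture at the prime `p` for the surface fibred over the projective line with
generic fibre `w ^ q = f(x)` over `K = k(t)`: the classes in `V_p Sel(J / F)`, `F = k'(t)`, which
are fixed by the Galois group, come from `J(K)`. If `c` is a cocycle of `Gal(Sep F / F)` with values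
in `T_p J` which is everywhere locally trivial, and the class of `c` is fixed by the Galois group of
`K`, then for every `n` there are an element `P` of `J(K)` and `R` with `p ^ n R = P` such that
`c n σ = σ R - R` for all `σ`. -/
def TateAt (k' : Type) [Field k'] [Algebra k'[X] F] [IsFractionRing k'[X] F]
    (f : K[X]) : Prop :=
  ∀ c : ℕ → (Sep F ≃ₐ[F] Sep F) → Jac q f (Sep F), IsTC p q f c →
    (∀ n, LocallyTrivial q k' f (c n)) → IsInv p q f c →
    ∀ n, ∃ (P : Jac q f K) (R : Jac q f (Sep F)), p ^ n • R = jm q f (incl K K (Sep F)) P ∧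
      IsCobOf q f (c n) R

/-- The `p`-primary part of the Tate-Shafarevich group of the Jacobian `J` of `w ^ q = f(x)` over the
field of fractions `K` of `A` is zero, even with respect to the maximal ideals of `A` only: let `c` be
a continuous cocycle of `Gal(Sep K / K)` with values in `J(Sep K)` such that `p ^ n c` is a coboundary
for some `n`, and such that for every maximal ideal `v` of `A` the restriction of `c` to the Galois
group of the completion of `K` at `v` is a coboundary. Then `c` is a coboundary. -/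
def ShaTriv (A : Type) [CommRing A] [IsDedekindDomain A] [Algebra A K] [IsFractionRing A K]
    (f : K[X]) : Prop :=
  ∀ c : (Sep K ≃ₐ[K] Sep K) → Jac q f (Sep K), IsCoc q f c →
    (∃ (n : ℕ) (P : Jac q f (Sep K)), IsCobOf q f (fun σ => p ^ n • c σ) P) →
    (∀ v : HeightOneSpectrum A, LocTriv q f (Comp A K v) (Sep (Comp A K v)) c) →
    ∃ P : Jac q f (Sep K), IsCobOf q f c P

end stmt

end Pool.Agent.Y160.SL
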