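import Pool.Agent.Y160.SL.Curve
import Pool.Agent.Y160.SL.Jac

/-!
# Branch curves and points on the generic fibre: definitions
-/

set_option autoImplicit false
set_option linter.all false

open Polynomial IsDedekindDomain

namespace Pool.Agent.Y160.SL

/-- The polynomial `f` in `x` (the outer variable) and `t` is monic of degree prime to `p` in `x`, the
affine curve `f = 0` is smooth, and `f` is separable and irreducible over `K = k(t)`. -/
structure IsBranchCurve (p : ℕ) {k : Type} [Field k] (f : k[X][X]) (K : Type) [Field K]
    [Algebra k[X] K] : Prop where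
  monic : f.Monic
  cop : p.Coprime f.natDegree
  smooth : Smooth f
  sep : (f.map (algebraMap k[X] K)).Separable
  irr : Irreducible (f.map (algebraMap k[X] K))

/-- `b = 0`, `w = c` is a prime divisor (a closed point) of the curve `w ^ q = f(x)` over `K`, not on
`w = 0`. -/
structure IsPoint (q : ℕ) {K : Type} [Field K] (f b c : K[X]) : Prop where
  monic : b.Monic
  irr : Irreducible b
  ndvd : ¬ b ∣ f
  dvd : b ∣ f - c ^ q

/-- Let `θ` be the root of `f` in `N = K[x] / (f)`. The function `z` in `N` is a constant of `k` times
a `q`-th power times a product of the elements `b_i(θ)`. -/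
def SpannedBy (k : Type) [Field k] {K : Type} [Field K] [Algebra k[X] K] (q : ℕ) (f : K[X])
    {n : ℕ} (b : Fin n → K[X]) (z : AdjoinRoot f) : Prop :=
  ∃ (u : k) (g : AdjoinRoot f) (e : Fin n → ℕ), u ≠ 0 ∧ IsUnit g ∧
    z = AdjoinRoot.of f (algebraMap k[X] K (C u)) * g ^ q * AdjoinRoot.mk f (∏ i, b i ^ e i)

/-- Every function `z` in `N = K[x] / (f)` whose divisor is divisible by `q` is a constant of `k` times
a `q`-th power times a product of the elements `b_i(θ)`. -/
def Filled (k : Type) [Field k] {K : Type} [Field K] [Algebra k[X] K] (q : ℕ) (f : K[X])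
    {n : ℕ} (b : Fin n → K[X]) : Prop :=
  ∀ z : AdjoinRoot f, z ≠ 0 → DivBy k[X] q z → SpannedBy k q f b z

/-- `D` generates the abelian group `M` modulo `p ^ n M` for every `n`. So if `M` is finitely
generated, its rank is at most the number of the elements `D i`. -/
def GeneratesAt (p : ℕ) {ι M : Type} [AddCommGroup M] (D : ι → M) : Prop :=
  ∀ (n : ℕ) (x : M), ∃ y : M, x - p ^ n • y ∈ AddSubgroup.closure (Set.range D)

end Pool.Agent.Y160.SL
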