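import Pool.Agent.Y160.SL.Jac

/-!
# The surfaces `w ^ q = g(x) + h(t) ^ q`: definitions
-/

set_option autoImplicit false
set_option linter.all false

open Polynomial IsDedekindDomain WithZero

namespace Pool.Agent.Y160.SL

/-- The polynomial `h = b₁ + a₁ (b₂ + a₂ (⋯ (b_d + a_d t ^ p) ^ p ⋯) ^ p) ^ p` in `t` for the list of
the pairs `(b₁, a₁), …, (b_d, a_d)`; for the empty list it is `t`. -/
noncomputable def nest {k : Type} [CommRing k] (p : ℕ) : List (k × k) → k[X]
  | [] => X
  | (b, a) :: l => C b + C a * nest p l ^ p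

/-- `f = g(x) + h(t) ^ q`, a polynomial in `x` (the outer variable) over `k[t]`. -/
noncomputable def surf {k : Type} [CommRing k] (q : ℕ) (g h : k[X]) : k[X][X] :=
  g.map C + C (h ^ q)

/-- `D` is a basis of the abelian group `M` at the prime `p`: the elements `D i` are linearly
independent, and for every `n` they generate `M` modulo `p ^ n M`. -/
def IsBasisAt (p : ℕ) {ι M : Type} [AddCommGroup M] (D : ι → M) : Prop :=
  LinearIndependent ℤ D ∧
    ∀ (n : ℕ) (x : M), ∃ y : M, x - p ^ n • y ∈ AddSubgroup.closure (Set.range D)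

/-- The arithmetic conditions on the elements `ρ₁, …, ρ_m` and the list of the pairs `(b, a)` of a
Dedekind domain `O`, in terms of the maximal ideals `Q` and `P i j`: all `ρ_j` are divisible by
`Q ^ q`; the difference `ρ_i - ρ_j` is divisible by `P i j` exactly once, and the other differences are
prime to `P i j`; all `a` are not zero; the first `b` is divisible by `Q` exactly once and by the
squares of the `P i j`; the other `b` are divisible by the squares of `Q` and of the `P i j`. -/
structure IsData {O : Type} [CommRing O] [IsDedekindDomain O] (q : ℕ) {m : ℕ} (ρ : Fin m → O)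
    (l : List (O × O)) (Q : HeightOneSpectrum O) (P : Fin m → Fin m → HeightOneSpectrum O) :
    Prop where
  divQ : ∀ j, Q.intValuation (ρ j) ≤ exp (-(q : ℤ))
  once : ∀ i j, i ≠ j → (P i j).intValuation (ρ i - ρ j) = exp (-1 : ℤ)
  prime : ∀ i j a b, i ≠ j → a ≠ b → ¬ (a = i ∧ b = j) → ¬ (a = j ∧ b = i) →
    (P i j).intValuation (ρ a - ρ b) = 1
  ne : ∀ x ∈ l, x.2 ≠ 0
  first : ∀ b a l', l = (b, a) :: l' → Q.intValuation b = exp (-1 : ℤ) ∧
    (∀ i j, i ≠ j → (P i j).intValuation b ≤ exp (-2 : ℤ)) ∧
    ∀ x ∈ l', Q.intValuation x.1 ≤ exp (-2 : ℤ) ∧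
      ∀ i j, i ≠ j → (P i j).intValuation x.1 ≤ exp (-2 : ℤ)

/-- The conclusions for the curve `w ^ q = f(x)` over `K = k(t)` and its Jacobian `J`: the Tate
conjecture at `p`; the triviality of the `p`-primary part of the Tate-Shafarevich group; and a basis
of `J(K)` at `p` with `n (q - 1)` elements. -/
structure Concl (p q n : ℕ) (k k' F : Type) {K : Type} [Field k] [Field k'] [Field K] [Field F]
    [Algebra k[X] K] [IsFractionRing k[X] K] [Algebra k'[X] F] [IsFractionRing k'[X] F]
    [Algebra K F] (f : K[X]) : Prop where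
  tate : TateAt (F := F) p q k' f
  sha : ShaTriv p q k[X] f
  basis : ∃ D : Fin n × Fin (q - 1) → Jac q f K, IsBasisAt p D

/-- There are infinitely many maximal ideals `v` such that `O / v` has at least `N` elements, for
every `N`. -/
def Large (O : Type) [CommRing O] [IsDedekindDomain O] : Prop :=
  ∀ N : ℕ, {v : HeightOneSpectrum O | ∃ f : Fin N → O, ∀ i j, i ≠ j →
    f i - f j ∉ v.asIdeal}.Infinite

end Pool.Agent.Y160.SL
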