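import Pool.Agent.Y160.SL.Fin

/-!
# The surfaces `w ^ q = (x ^ M + τ) ^ m - ρ ^ m + (β + c t ^ n) ^ q` with integers `τ`, `ρ`, `β`, `c`:
# definitions
-/

set_option autoImplicit false
set_option linter.all false

open Polynomial

namespace Pool.Agent.Y160.SL

/-- `g = (x ^ M + τ) ^ m - ρ ^ m`, a polynomial in `x` over `ℤ`. -/
noncomputable def binPoly (m M : ℕ) (τ ρ : ℤ) : ℤ[X] :=
  (X ^ M + C τ) ^ m - C (ρ ^ m)

/-- `f = (x ^ M + τ) ^ m - ρ ^ m + (β + c t ^ n) ^ q`, a polynomial in `x` (the outer variable) over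
`ℤ[t]`. -/
noncomputable def four (q m M n : ℕ) (τ ρ β c : ℤ) : ℤ[X][X] :=
  surf q (binPoly m M τ ρ) (C β + C c * X ^ n)

/-- The polynomial `f` with integer coefficients over the field `K = E(t)`. -/
noncomputable def overField (E : Type) [Field E] (K : Type) [Field K] [Algebra E[X] K] (f : ℤ[X][X]) :
    K[X] :=
  (f.map (mapRingHom (Int.castRingHom E))).map (algebraMap E[X] K)

/-- The image of `g` modulo `P` has only simple roots. -/
def SepMod (P : ℕ) (g : ℤ[X]) : Prop := (g.map (Int.castRingHom (ZMod P))).Separable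

/-- The conclusions for the curve `w ^ q = f(x)` over `K = k'(t)`: the Tate conjecture at `p`, the
triviality of the `p`-primary part of the Tate-Shafarevich group, and a basis at `p` of the group of
the points of the Jacobian over `K`, with `n (q - 1)` elements. -/
def GenConcl (p q n : ℕ) (k' : Type) [Field k'] (f : ℤ[X][X]) : Prop :=
  ∀ (k'' K L : Type) [Field k''] [Algebra k' k''] [Field K]
    [Algebra k'[X] K] [IsFractionRing k'[X] K] [Field L] [Algebra k''[X] L]
    [IsFractionRing k''[X] L] [Algebra K L], Pool.Agent.TH115.GD.IsTower k' k'' K L →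
    Concl p q n k' k'' L (overField k' K f)

/-- The conclusions for the curve `w ^ q = f(x)` over `K = F(t)`: the triviality of the `p`-primary part
of the Tate-Shafarevich group, and a basis at `p` of the group of the points of the Jacobian over `K`,
with `n (q - 1)` elements. -/
def RedConcl (p q n : ℕ) (F : Type) [Field F] (f : ℤ[X][X]) : Prop :=
  ∀ (K : Type) [Field K] [Algebra F[X] K] [IsFractionRing F[X] K],
    ShaBasis p q n F (overField F K f)

/-- The conclusions for the surfaces `w ^ q = (x ^ M + τ) ^ m - ρ ^ m + (β + c t ^ (p ^ d)) ^ q`,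
`M = N ^ e`, for all `d ≥ 1` and all `e`, over the field `k'` and over the field `ℤ / P`. -/
structure FourConcl (p q m N : ℕ) (τ ρ β c : ℤ) (k' : Type) [Field k'] (P : ℕ) [Fact P.Prime] :
    Prop where
  /-- the characteristic `P` -/
  ne : ((q * m * N : ℕ) : ZMod P) ≠ 0 ∧ (c : ZMod P) ≠ 0
  /-- the zeros of `h` and of `h - β` on the branch curve are simple modulo `P` -/
  sep : ∀ e : ℕ, SepMod P (binPoly m (N ^ e) τ ρ) ∧
    SepMod P (binPoly m (N ^ e) τ ρ + C (β ^ q))
  gen : ∀ d e : ℕ, 0 < d → GenConcl p q (m - 1) k' (four q m (N ^ e) (p ^ d) τ ρ β c)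
  red : ∀ d e : ℕ, 0 < d → RedConcl p q (m - 1) (ZMod P) (four q m (N ^ e) (p ^ d) τ ρ β c)

/-- There are an extension `k' = k(γ)` of the field `k`, where `γ ^ m = ρ ^ m - β ^ q`, and a prime `P`
such that `k'` is a subfield of the field of the `P`-adic numbers, and the conclusions hold. -/
def Works (p q m N : ℕ) (k : Type) [Field k] (τ ρ β c : ℤ) : Prop :=
  ∃ (k' : Type) (_ : Field k') (_ : Algebra k k') (γ : k') (P : ℕ) (_ : Fact P.Prime),
    γ ^ m = (ρ : k') ^ m - (β : k') ^ q ∧ IntermediateField.adjoin k {γ} = ⊤ ∧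
    Nonempty (k' →+* ℚ_[P]) ∧ FourConcl p q m N τ ρ β c k' P

end Pool.Agent.Y160.SL
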