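import Pool.Agent.Y160.SL.Fin

/-!
# The surfaces `w ^ q = (x ^ M + τ) ^ m - ρ ^ m + (β + c t ^ n) ^ q` over finite fields: definitions
-/

set_option autoImplicit false
set_option linter.all false

open Polynomial

namespace Pool.Agent.Y160.SL

/-- `g = (x ^ M + τ) ^ m - ρ ^ m`, a polynomial in `x` over `F`. -/
noncomputable def binF {F : Type} [Field F] (m M : ℕ) (τ ρ : F) : F[X] :=
  (X ^ M + C τ) ^ m - C (ρ ^ m)

/-- `f = (x ^ M + τ) ^ m - ρ ^ m + (β + c t ^ n) ^ q`, a polynomial in `x` (the outer variable) over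
`F[t]`, where `v` is the quadruple `(τ, ρ, β, c)`. -/
noncomputable def fourF {F : Type} [Field F] (q m M n : ℕ) (v : Fin 4 → F) : F[X][X] :=
  surf q (binF m M (v 0) (v 1)) (C (v 2) + C (v 3) * X ^ n)

/-- The conclusions for the quadruple `v = (τ, ρ, β, c)` and the curves `w ^ q = f(x)` over `K = F(t)`,
`f = (x ^ M + τ) ^ m - ρ ^ m + (β + c t ^ (p ^ d)) ^ q`, `M = N ^ e`, for all `d ≥ 1` and all `e`: `c` is
not zero, `g = (x ^ M + τ) ^ m - ρ ^ m` and `g + β ^ q` have simple roots only, the `p`-primary part of the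
Tate-Shafarevich group of the Jacobian is zero, and the group of its points over `K` has a basis at `p`
with `(m - 1) (q - 1)` elements. -/
structure GoodQuad (p q m N : ℕ) (F : Type) [Field F] (v : Fin 4 → F) : Prop where
  ne : v 3 ≠ 0
  sep : ∀ e : ℕ, (binF m (N ^ e) (v 0) (v 1)).Separable ∧
    (binF m (N ^ e) (v 0) (v 1) + C (v 2 ^ q)).Separable
  sha : ∀ d e : ℕ, 0 < d → ∀ (K : Type) [Field K] [Algebra F[X] K] [IsFractionRing F[X] K],
    ShaBasis p q (m - 1) F ((fourF q m (N ^ e) (p ^ d) v).map (algebraMap F[X] K))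

/-- `z` is a primitive `m`-th root of unity, and `-1`, `z` and the differences of the powers of `z` are
`p`-th powers in `F`. -/
structure RootData (p m : ℕ) {F : Type} [Field F] (z : F) : Prop where
  prim : IsPrimitiveRoot z m
  neg : ∃ y : F, y ^ p = -1
  pow : ∃ y : F, y ^ p = z
  sub : ∀ i j : ℕ, ∃ y : F, y ^ p = z ^ i - z ^ j

end Pool.Agent.Y160.SL
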