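import Pool.Agent.Y160.SL.Four

/-!
# The surfaces `w ^ q = g(x ^ M) + (b(x ^ M) + c t ^ n) ^ q` with integer coefficients: definitions
-/

set_option autoImplicit false
set_option linter.all false

open Polynomial

namespace Pool.Agent.Y160.SL

/-- The polynomial `g = x ^ m + ∑ v_i x ^ i`, `i < m`. -/
noncomputable def coefG {A : Type} [CommRing A] (m r : ℕ) (v : Fin (m + (r + 2)) → A) : A[X] :=
  X ^ m + ∑ i : Fin m, C (v (Fin.castAdd (r + 2) i)) * X ^ (i : ℕ)

/-- The polynomial `b = ∑ v_(m + j) x ^ j`, `j ≤ r`. -/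
noncomputable def coefB {A : Type} [CommRing A] (m r : ℕ) (v : Fin (m + (r + 2)) → A) : A[X] :=
  ∑ j : Fin (r + 1), C (v (Fin.natAdd m j.castSucc)) * X ^ (j : ℕ)

/-- The last element `c = v_(m + r + 1)`. -/
def coefC {A : Type} (m r : ℕ) (v : Fin (m + (r + 2)) → A) : A :=
  v (Fin.natAdd m (Fin.last (r + 1)))

/-- `f = g(x ^ M) + (b(x ^ M) + c t ^ n) ^ q`, a polynomial in `x` (the outer variable) over `ℤ[t]`. -/
noncomputable def towSurf (q M n : ℕ) (g b : ℤ[X]) (c : ℤ) : ℤ[X][X] :=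
  (expand ℤ M g).map C + ((expand ℤ M b).map C + C (C c * X ^ n)) ^ q

/-- The image of `g` modulo `P` is irreducible. -/
def IrrMod (P : ℕ) (g : ℤ[X]) : Prop := Irreducible (g.map (Int.castRingHom (ZMod P)))

/-- The conclusions for the surfaces `w ^ q = g(x ^ M) + (b(x ^ M) + c t ^ (p ^ d)) ^ q`, for all `d ≥ 1`
and all `M` which divide a power of `R`, over the subfields of the field of the `P`-adic numbers
which contain the `q`-th roots of unity, and over the field `ℤ / P`. -/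
structure TowConcl (p q m R : ℕ) (g b : ℤ[X]) (c : ℤ) (P : ℕ) [Fact P.Prime] : Prop where
  /-- the characteristic `P` -/
  ne : ((q * m * R : ℕ) : ZMod P) ≠ 0 ∧ (c : ZMod P) ≠ 0
  irr : ∀ M e : ℕ, M ∣ R ^ e → IrrMod P (expand ℤ M g) ∧ IrrMod P (expand ℤ M (g + b ^ q))
  gen : ∀ (E : Type) [Field E] (ζ : E), IsPrimitiveRoot ζ q → Nonempty (E →+* ℚ_[P]) →
    ∀ d M e : ℕ, 0 < d → M ∣ R ^ e → GenConcl p q 0 E (towSurf q M (p ^ d) g b c)
  red : ∀ d M e : ℕ, 0 < d → M ∣ R ^ e → RedConcl p q 0 (ZMod P) (towSurf q M (p ^ d) g b c)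

/-- There is a prime `P` such that the field `k` is a subfield of the field of the `P`-adic numbers, and
the conclusions hold. -/
def TowWorks (p q m R : ℕ) (k : Type) [Field k] (g b : ℤ[X]) (c : ℤ) : Prop :=
  ∃ (P : ℕ) (_ : Fact P.Prime), Nonempty (k →+* ℚ_[P]) ∧ TowConcl p q m R g b c P

end Pool.Agent.Y160.SL
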