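import Pool.Agent.Y160.SL.Gen

/-!
# The surfaces `w ^ q = (x ^ M - ρ) u(x ^ M) + (β + c t ^ (p ^ d)) ^ q` with integer coefficients:
# definitions
-/

set_option autoImplicit false
set_option linter.all false

open Polynomial

namespace Pool.Agent.Y160.SL

/-- The polynomial `u = x ^ n + ∑ v_i x ^ i`, `i < n`. -/
noncomputable def linU {A : Type} [CommRing A] (n : ℕ) (v : Fin (n + 3) → A) : A[X] :=
  X ^ n + ∑ i : Fin n, C (v (Fin.castAdd 3 i)) * X ^ (i : ℕ)

/-- The elements `ρ = v_n`, `β = v_(n + 1)` and `c = v_(n + 2)`, for `j = 0, 1, 2`. -/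
def linE {A : Type} (n : ℕ) (v : Fin (n + 3) → A) (j : Fin 3) : A := v (Fin.natAdd n j)

/-- The polynomial `g = (x - ρ) u`. -/
noncomputable def linG {A : Type} [CommRing A] (n : ℕ) (v : Fin (n + 3) → A) : A[X] :=
  (X - C (linE n v 0)) * linU n v

/-- The polynomial `h = g + β ^ q`. -/
noncomputable def linH {A : Type} [CommRing A] (q n : ℕ) (v : Fin (n + 3) → A) : A[X] :=
  linG n v + C (linE n v 1 ^ q)

/-- `f = (x ^ M - ρ) u(x ^ M) + (β + c t ^ N) ^ q`, a polynomial in `x` (the outer variable) over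
`ℤ[t]`. -/
noncomputable def linSurf (q n M N : ℕ) (v : Fin (n + 3) → ℤ) : ℤ[X][X] :=
  towSurf q M N (linG n v) (C (linE n v 1)) (linE n v 2)

/-- The conclusions for the surfaces `w ^ q = (x ^ M - ρ) u(x ^ M) + (β + c t ^ (p ^ d)) ^ q`, for all
`d ≥ 1` and all `M` which divide a power of `R`, over the subfields of the field of the `P`-adic
numbers which contain the `q`-th roots of unity, a `p`-th root of `-1` and a zero of `h`, and over the
field `ℤ / P`. -/
structure LinConcl (p q n R : ℕ) (v : Fin (n + 3) → ℤ) (P : ℕ) [Fact P.Prime] : Prop where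
  /-- the characteristic `P` -/
  ne : ((q * (n + 1) * R : ℕ) : ZMod P) ≠ 0 ∧ ((linE n v 2 : ℤ) : ZMod P) ≠ 0
  irr : ∀ M e : ℕ, M ∣ R ^ e →
    IrrMod P (expand ℤ M (X - C (linE n v 0))) ∧ IrrMod P (expand ℤ M (linU n v))
  sep : ∀ M e : ℕ, M ∣ R ^ e → SepMod P (expand ℤ M (linG n v)) ∧ SepMod P (expand ℤ M (linH q n v))
  root : ∃ x : ℚ_[P], aeval x (linH q n v) = 0
  gen : ∀ (E : Type) [Field E] (ζ η x : E), IsPrimitiveRoot ζ q → η ^ p = -1 →
    aeval x (linH q n v) = 0 → Nonempty (E →+* ℚ_[P]) →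
    ∀ d M e : ℕ, 0 < d → M ∣ R ^ e → GenConcl p q 1 E (linSurf q n M (p ^ d) v)
  red : ∀ d M e : ℕ, 0 < d → M ∣ R ^ e → RedConcl p q 1 (ZMod P) (linSurf q n M (p ^ d) v)

/-- There is a prime `P` such that the field `k` is a subfield of the field of the `P`-adic numbers, and
the conclusions hold. -/
def LinWorks (p q n R : ℕ) (k : Type) [Field k] (v : Fin (n + 3) → ℤ) : Prop :=
  ∃ (P : ℕ) (_ : Fact P.Prime), Nonempty (k →+* ℚ_[P]) ∧ LinConcl p q n R v P

end Pool.Agent.Y160.SL
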