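import Pool.Agent.Y160.SL.Gen

/-!
# The surfaces `w ^ q = ∏ (x ^ M - ρ_i) u(x ^ M) + (b(x ^ M) + c t ^ n) ^ q` with integer coefficients:
# definitions
-/

set_option autoImplicit false
set_option linter.all false

open Polynomial

namespace Pool.Agent.Y160.SL

section data

variable {A : Type} (n D r : ℕ) (v : Fin (n + (D + (r + 2))) → A)

/-- The elements `ρ_i = v_i`, `i < n`. -/
def manyR (i : Fin n) : A := v (Fin.castAdd (D + (r + 2)) i)

/-- The other elements `v_(n + j)`. -/
def manyT (j : Fin (D + (r + 2))) : A := v (Fin.natAdd n j)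

/-- The last element `c`. -/
def manyC : A := coefC D r (manyT n D r v)

variable [CommRing A]

/-- The monic polynomial `u` of degree `D` with the coefficients `v_n, …, v_(n + D - 1)`. -/
noncomputable def manyU : A[X] := coefG D r (manyT n D r v)

/-- The polynomial `b` of degree at most `r` with the coefficients `v_(n + D), …, v_(n + D + r)`. -/
noncomputable def manyB : A[X] := coefB D r (manyT n D r v)

/-- The polynomial `g = (x - ρ_1) ⋯ (x - ρ_n) u`. -/
noncomputable def manyG : A[X] := (∏ i, (X - C (manyR n D r v i))) * manyU n D r v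

end data

/-- The image of `f` is irreducible over the field `k`. -/
def IrrOver (k : Type) [Field k] (f : ℤ[X]) : Prop := Irreducible (f.map (Int.castRingHom k))

/-- The conclusions over the field `k` for the surfaces
`w ^ q = ∏ (x ^ M - ρ_i) u(x ^ M) + (b(x ^ M) + c t ^ (p ^ d)) ^ q`, for all `d ≥ 1` and all `M` which
divide a power of `R`. -/
structure ManyWorks (p q n D r R : ℕ) (k : Type) [Field k] (v : Fin (n + (D + (r + 2))) → ℤ) :
    Prop where
  ne : manyC n D r v ≠ 0
  irr : ∀ M e : ℕ, M ∣ R ^ e → (∀ i, IrrOver k (expand ℤ M (X - C (manyR n D r v i)))) ∧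
    IrrOver k (expand ℤ M (manyU n D r v)) ∧
    IrrOver k (expand ℤ M (manyG n D r v + manyB n D r v ^ q))
  gen : ∀ d M e : ℕ, 0 < d → M ∣ R ^ e → GenConcl p q n k
    (towSurf q M (p ^ d) (manyG n D r v) (manyB n D r v) (manyC n D r v))

end Pool.Agent.Y160.SL
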