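import Pool.Agent.Y160.SL.Fin

/-!
# The surfaces over a field `k` with a discrete valuation, and their reductions: definitions
-/

set_option autoImplicit false
set_option linter.all false

open Polynomial

namespace Pool.Agent.Y160.SL

/-- The data `ρ`, `γ`, `β`, `τ` are in the ring `O`, with `∏ (x - γ_i) = ∏ (x - ρ_i) + β ^ q`, and their
images in the field `F` under the homomorphism `π` satisfy the conditions on the residue classes
modulo `p`-th powers in `F` and on the irreducibility of the binomials over `F`. -/
structure IsReduction {O F : Type} [CommRing O] [Field F] (π : O →+* F) (p q M : ℕ) {m : ℕ}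
    (ρ γ : Fin m → O) (β τ : O) : Prop where
  prod : ∏ i, (X - C (γ i)) = ∏ i, (X - C (ρ i)) + C (β ^ q)
  residue : IsResidue p q (fun i => π (ρ i)) (fun i => π (γ i)) (π β)
  binom : IsBinom p M (fun i => π (ρ i)) (fun i => π (γ i)) (π τ)

/-- The surface `w ^ q = ∏ (x ^ M + τ - ρ_i) + (β + c t ^ n) ^ q`: the polynomial on the right-hand
side over the field `E`, where the coefficients are taken to `E` by the homomorphism `φ`, as a
polynomial in `x` over the field `K = E(t)`. -/
noncomputable def surfOver {O E : Type} [CommRing O] [Field E] (φ : O →+* E) (q M n : ℕ) {m : ℕ}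
    (ρ : Fin m → O) (τ β c : O) (K : Type) [Field K] [Algebra E[X] K] : K[X] :=
  (finSurf q M n (fun i => φ (ρ i)) (φ τ) (φ β) (φ c)).map (algebraMap E[X] K)

end Pool.Agent.Y160.SL
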