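import Pool.Agent.Y160.SL.Fin
import Pool.Agent.Y160.SL.Gen

/-!
# The surfaces `w ^ q = g(x ^ M) + (b(x ^ M) + c t ^ n) ^ q` over finite fields: definitions
-/

set_option autoImplicit false
set_option linter.all false

open Polynomial

namespace Pool.Agent.Y160.SL

/-- `f = g(x ^ M) + (b(x ^ M) + c t ^ n) ^ q`, a polynomial in `x` (the outer variable) over `F[t]`. -/
noncomputable def towF {F : Type} [Field F] (q M n : ℕ) (g b : F[X]) (c : F) : F[X][X] :=
  (expand F M g).map C + ((expand F M b).map C + C (C c * X ^ n)) ^ q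

/-- The conclusions for the curves `w ^ q = f(x)` over `K = F(t)`,
`f = g(x ^ M) + (b(x ^ M) + c t ^ (p ^ d)) ^ q`, for all `d ≥ 1` and all `M` which divide a power of `R`:
`c` is not zero, `g(x ^ M)` and `(g + b ^ q)(x ^ M)` are irreducible, the `p`-primary part of the
Tate-Shafarevich group of the Jacobian `J` is zero, and the empty family is a basis of `J(K)` at `p`. -/
structure GoodTow (p q R : ℕ) (F : Type) [Field F] (g b : F[X]) (c : F) : Prop where
  ne : c ≠ 0
  irr : ∀ M e : ℕ, M ∣ R ^ e → Irreducible (expand F M g) ∧ Irreducible (expand F M (g + b ^ q))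
  sha : ∀ d M e : ℕ, 0 < d → M ∣ R ^ e →
    ∀ (K : Type) [Field K] [Algebra F[X] K] [IsFractionRing F[X] K],
      ShaBasis p q 0 F ((towF q M (p ^ d) g b c).map (algebraMap F[X] K))

end Pool.Agent.Y160.SL
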